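import Pool.Agent.Helper28.BW.FinalBW

/-!
Problem MP_305b31_co (excluded minors of minor-closed classes of gain-graphic matroids), the class of all
`H`-gain-graphic matroids.

Let `H` be a finite group. For every `k` there is an `n` such that no excluded minor `N` of the class of all
`H`-gain-graphic matroids has a strictly increasing chain of `n` sets `X` with
`r(X) + r(E - X) ≤ r(E) + k`.
The encoding of matroids, gain graphs and minors is that of the frozen statement `S07929`.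
-/

namespace Pool.Agent.Results.MP_305b31_co.NoLongChains

open Pool.Agent.Helper25.GG Pool.Agent.Helper28.BW

/-- Let `H` be a finite group and `k` a natural number. There is an `n` such that no finite matroid `N` which
is not `H`-gain-graphic, but all of whose proper minors are `H`-gain-graphic, has a strictly increasing
chain of `n` sets `X` with `r(X) + r(E - X) ≤ r(E) + k`. -/
theorem result : ∀ (H : Type) [Group H] [Finite H] (k : ℕ),
    ∃ n : ℕ, ∀ N : Matroid ℕ, N.E.Finite →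
      ¬ (∃ (m : ℕ) (tl hd : ℕ → Fin m) (γ : ℕ → H), ∀ I ⊆ N.E, (N.Indep I ↔
        ∀ X ⊆ I, X.Nonempty → (X.ncard ≤ (tl '' X ∪ hd '' X).ncard ∧
          ((∃ φ : Fin m → H, ∀ e ∈ X, γ e = (φ (tl e))⁻¹ * φ (hd e)) →
            X.ncard + 1 ≤ (tl '' X ∪ hd '' X).ncard)))) →
      (∀ N' : Matroid ℕ, Matroid.IsMinor N' N → N' ≠ N →
        (∃ (m : ℕ) (tl hd : ℕ → Fin m) (γ : ℕ → H), ∀ I ⊆ N'.E, (N'.Indep I ↔
        ∀ X ⊆ I, X.Nonempty → (X.ncard ≤ (tl '' X ∪ hd '' X).ncard ∧
          ((∃ φ : Fin m → H, ∀ e ∈ X, γ e = (φ (tl e))⁻¹ * φ (hd e)) →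
            X.ncard + 1 ≤ (tl '' X ∪ hd '' X).ncard))))) →
      ¬ ∃ X : ℕ → Set ℕ, (∀ i, i < n → X i ⊆ N.E) ∧ (∀ i j, i < j → j < n → X i ⊂ X j) ∧
        ∀ i, i < n → N.eRk (X i) + N.eRk (N.E \ X i) ≤ N.eRank + k := by
  intro H _ _ k
  obtain ⟨n, hn⟩ := chain_sets H k
  exact ⟨n, fun N hfin h1 h2 => hn N hfin (fun h => h1 ((gainGraphic_iff N).mp h).2)
    (fun N' h3 h4 => (gainGraphic_iff N').mpr ⟨hfin.subset h3.subset, h2 N' h3 h4⟩)⟩

end Pool.Agent.Results.MP_305b31_co.NoLongChains
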