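import Pool.Agent.Helper28.BW.FinalBW
import Pool.Agent.Helper28.GT.GridMat

/-!
Problem MP_305b31_co (excluded minors of minor-closed classes of gain-graphic matroids).

Let `H` be a finite group, `𝓜` a minor-closed class of `H`-gain-graphic matroids and `n` a natural
number. Then only finitely many excluded minors of `𝓜` (up to isomorphism) have branch-width at most
`n` or do not have the cycle matroid of the `n × n` grid as a minor. In particular `𝓜` has only finitely
many excluded minors if it does not contain the cycle matroids of all grids (equivalently, of all planar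
graphs), or if it has bounded branch-width.
The encoding of matroids, gain graphs, minors and isomorphism is that of the frozen statement `S07929`.
-/

namespace Pool.Agent.Results.MP_305b31_co.PlanarClasses

open Pool.Agent.Helper25.GG Pool.Agent.Helper28.BW Pool.Agent.Helper28.GT

/-- Let `H` be a finite group and `𝓜` an isomorphism- and minor-closed class of
`H`-gain-graphic matroids. For every `n` there is a finite set of matroids that contains, up to
isomorphism, every excluded minor of `𝓜` that has branch-width at most `n` or has no minor which is the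
cycle matroid of the `n × n` grid. In particular, if for some `n` the cycle matroid of the `n × n` grid is
not in `𝓜`, or all members of `𝓜` have branch-width at most `n`, then `𝓜` has only finitely many
excluded minors up to isomorphism. -/
theorem result : ∀ (H : Type) [Group H] [Finite H] (𝓜 : Set (Matroid ℕ)),
    (∀ M ∈ 𝓜, M.E.Finite ∧ ∃ (n : ℕ) (tl hd : ℕ → Fin n) (γ : ℕ → H),
      ∀ I ⊆ M.E, (M.Indep I ↔ ∀ X ⊆ I, X.Nonempty →
        (X.ncard ≤ (tl '' X ∪ hd '' X).ncard ∧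
          ((∃ φ : Fin n → H, ∀ e ∈ X, γ e = (φ (tl e))⁻¹ * φ (hd e)) →
            X.ncard + 1 ≤ (tl '' X ∪ hd '' X).ncard)))) →
    (∀ M ∈ 𝓜, ∀ N : Matroid ℕ, Matroid.IsMinor N M → N ∈ 𝓜) →
    (∀ M ∈ 𝓜, ∀ N : Matroid ℕ,
      (∃ f : ℕ → ℕ, Set.BijOn f M.E N.E ∧ ∀ I ⊆ M.E, (M.Indep I ↔ N.Indep (f '' I))) →
      N ∈ 𝓜) →
    (∀ n : ℕ, ∃ S : Finset (Matroid ℕ), ∀ N : Matroid ℕ, N.E.Finite → N ∉ 𝓜 →
      (∀ N' : Matroid ℕ, Matroid.IsMinor N' N → N' ≠ N → N' ∈ 𝓜) →
      (BwLe N n ∨ ∀ N' : Matroid ℕ, Matroid.IsMinor N' N → ¬ IsGrid n N') →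
      ∃ M ∈ S, ∃ f : ℕ → ℕ, Set.BijOn f N.E M.E ∧
        ∀ I ⊆ N.E, (N.Indep I ↔ M.Indep (f '' I))) ∧
    ((∃ n : ℕ, (∀ M ∈ 𝓜, ¬ IsGrid n M) ∨ (∀ M ∈ 𝓜, BwLe M n)) →
      ∃ S : Finset (Matroid ℕ), ∀ N : Matroid ℕ, N.E.Finite → N ∉ 𝓜 →
        (∀ N' : Matroid ℕ, Matroid.IsMinor N' N → N' ≠ N → N' ∈ 𝓜) →
        ∃ M ∈ S, ∃ f : ℕ → ℕ, Set.BijOn f N.E M.E ∧
          ∀ I ⊆ N.E, (N.Indep I ↔ M.Indep (f '' I))) := by
  intro H _ _ 𝓜 hg hm hi
  classical
  have hg' : ∀ M ∈ 𝓜, GainGraphic H M := fun M hM => (gainGraphic_iff M).mpr (hg M hM)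
  have h1 := fun k => finalBW H 𝓜 hg' hi k
  refine ⟨?_, ?_⟩
  · intro n
    obtain ⟨k, hk⟩ := bw_or_grid H n
    obtain ⟨S, hS⟩ := h1 (k + 1)
    obtain ⟨S', hS'⟩ := h1 n
    refine ⟨S' ∪ S, fun N hfin hN hmin hgr => ?_⟩
    rcases hgr with hgr | hgr
    · obtain ⟨M, hM, h2⟩ := hS' N hfin hN hmin hgr
      exact ⟨M, Finset.mem_union_left _ hM, h2⟩
    have hbw : BwLe N (k + 1) := by
      by_cases h : N.E = ∅
      · exact Or.inl h
      · obtain ⟨e, he⟩ := Set.nonempty_iff_ne_empty.2 h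
        have hdel : Matroid.IsMinor (N.delete {e}) N := delete_isMinor' N {e}
        have hne : N.delete {e} ≠ N := by
          intro heq
          have h1 : e ∈ (N.delete {e}).E := (congrArg Matroid.E heq).symm ▸ he
          exact h1.2 rfl
        refine bwLe_of_delete he ?_
        rcases hk _ (hg' _ (hmin _ hdel hne)) with h2 | ⟨N', hN', hgr'⟩
        · exact h2
        · exact absurd hgr' (hgr N' (hN'.trans hdel))
    obtain ⟨M, hM, h2⟩ := hS N hfin hN hmin hbw
    exact ⟨M, Finset.mem_union_right _ hM, h2⟩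
  · rintro ⟨n, h⟩
    have h2 : ∃ k : ℕ, ∀ M ∈ 𝓜, BwLe M k := by
      rcases h with hn | h
      · obtain ⟨k, hk⟩ := bw_or_grid H n
        refine ⟨k, fun M hM => ?_⟩
        rcases hk M (hg' M hM) with h | ⟨N', hN', hgr⟩
        · exact h
        · exact absurd hgr (hn N' (hm M hM N' hN'))
      · exact ⟨n, h⟩
    obtain ⟨k, hk⟩ := h2
    obtain ⟨S, hS⟩ := h1 (k + 1)
    exact ⟨S, fun N hfin hN hmin => hS N hfin hN hmin (bwLe_excl hk hmin)⟩

end Pool.Agent.Results.MP_305b31_co.PlanarClasses
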